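import Pool.Agent.H88.BFSDefs
import Pool.Agent.H88.BFS2

set_option autoImplicit false

namespace Pool.Agent.Results.MP_3f33d0_an.Counter

open Pool.Agent.H88.BFS

theorem result : ∃ (E : Type) (_ : NormedAddCommGroup E) (_ : NormedSpace ℂ E) (_ : CompleteSpace E)
    (ι : E →ₗ[ℂ] (ℤ → ℂ)), IsBFS ι ∧ Invariant ι ∧ (∃ T : E →L[ℂ] E, ¬ Regular ι T.toLinearMap) ∧
      ∀ T : E →L[ℂ] E, Commutes ι T → Regular ι T.toLinearMap := by
  refine ⟨L ℤ, inferInstance, inferInstance, inferInstance, io, isBFS, invariant, ?_, comm_reg⟩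
  obtain ⟨T, hT⟩ := exists_nonreg
  refine ⟨T, fun h => hT ?_⟩
  simpa only [Regular, Positive, nonneg_io] using h

end Pool.Agent.Results.MP_3f33d0_an.Counter
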